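import Pool.Agent.U554.TD.Two

/-!
# The crystalline Tate conjecture over finite fields, dimension by dimension, and cubics

Let `k` be a finite field with `q` elements, `K` the fraction field of `W(k)`, `Fr` the `K`-linear Frobenius.

* `𝓡` is the category of vector spaces over `K` and `one = K`.
* `O b m X`, for the separated schemes `X` of finite type over `k`, is the regulator
  `c : CH_b(X, m) ⊗ K → H_{m + 2 b}(X)(b)^{(Fr - 1)^∞ = 0}` with values in the rigid Borel-Moore homology (the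
  generalised eigenspace of the Frobenius of the eigenvalue `1`, an exact functor). If `X` is smooth and
  proper of pure dimension `n`, then `O b 0 X` is
  `CH^i(X) ⊗ K → H^{2 i}_crys(X)(i)^{(Fr - 1)^∞ = 0}`, `i = n - b`. It is onto if and only if the cycle class
  map of Q1 is onto and the eigenvalue `1` of `Fr` on `H^{2 i}_crys(X)(i)` is semisimple.

Let `T` be a trilinear form in three blocks `x`, `y`, `z` of `a₁`, `a₂`, `a₃` variables.

* `bilS T` is the closed subscheme `Z_T` of `𝔸^(a₂ + a₃)` given by the `a₁` bilinear equations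
  `∂T/∂x_i (y, z) = 0`;
* `hypS T` is the smooth affine cubic hypersurface `Y_T : T(x, y, z) = 1` of dimension
  `n = a₁ + a₂ + a₃ - 1`; `O (n - j) 1 (hypS T)` is the regulator
  `CH^j(Y_T, 1) ⊗ K → H^{2 j - 1}_rig(Y_T)(j)^{(Fr - 1)^∞ = 0}`.

The known facts which are used are in `IsClassTheory` and `QuarticSurfaces`.
-/

set_option autoImplicit false

open CategoryTheory AlgebraicGeometry MvPolynomial Pool.Agent.Y116.UV Pool.Agent.U554.TW Pool.Agent.U554.TD
  Pool.Agent.U483.GU

universe w v u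

namespace Pool.Agent.Results.MP_60ec62_ag.CubicsByDimension

/-- **The strong crystalline Tate conjecture: small blocks, and dimension by dimension.**

(A) If two of the three blocks of `T` have at most `4` variables (the third one is arbitrary), or if one block
has at most `3` variables, then all classes on `Z_T` are algebraic, and
`CH^j(Y_T, 1) ⊗ K → H^{2 j - 1}_rig(Y_T)(j)^{(Fr - 1)^∞ = 0}` is onto for all `j ≥ 1`.

(B) Let `d ≥ 1` and let `s` be any number. The following are equivalent, and all hold for `d = 1`: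

1. (`d = 1`, or) Q1 and the semisimplicity for all smooth projective `V` of dimension at most `d` over `k`;
2. all classes in `H_{2 b}(X)(-b)`, `b` arbitrary, are algebraic for all separated schemes `X` of finite type
   of dimension at most `d`;
3. the same for all `Z_T` with a block of at most `d + 2` variables, and for all closed subschemes of affine
   spaces which are given by equations with `t_1, …, t_c` terms, `∑ max(t_i - 2, 0) ≤ d`;
4. `CH^j(Y_T, 1) ⊗ K → H^{2 j - 1}_rig(Y_T)(j)^{(Fr - 1)^∞ = 0}` is onto for all `j ≥ 1` and all `T` with a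
   block of at most `d + 2` variables;
5. the same for all `T` with exactly `d + 2` variables `y` and all `j ≥ 1` with `j ≥ s`. -/
theorem result {𝓡 : Type u} [Category.{v} 𝓡] [Abelian 𝓡] (one : 𝓡) {k : Type} [Field k] [Finite k]
    (O : ℤ → ℤ → Sch k → CReg.{w} one) (hO : IsClassTheory O) (hq : QuarticSurfaces O) :
    (∀ (a₁ a₂ a₃ : ℕ) (T : Fin a₁ → Fin a₂ → Fin a₃ → k),
      Block 3 a₁ a₂ a₃ ∨ TwoBlocks 4 4 a₁ a₂ a₃ →
      AllOnto O (bilS T) ∧ ∀ j : ℕ, 1 ≤ j → (O (a₁ + a₂ + a₃ - 1 - j) 1 (hypS T)).Onto) ∧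
    ∀ (d : ℕ), 1 ≤ d → ∀ s : ℕ, List.TFAE [
      d = 1 ∨ ∀ V : Sch k, SmoothProjective V → topologicalKrullDim V.left ≤ d → AllOnto O V,
      ∀ X : Sch k, FT True X → topologicalKrullDim X.left ≤ d → AllOnto O X,
      (∀ (a₁ a₂ a₃ : ℕ) (T : Fin a₁ → Fin a₂ → Fin a₃ → k), Block (d + 2) a₁ a₂ a₃ →
        AllOnto O (bilS T)) ∧
      ∀ (n : ℕ) (G : Finset (MvPolynomial (Fin n) k)), ∑ g ∈ G, (g.support.card - 2) ≤ d →
        AllOnto O (aff k (MvPolynomial (Fin n) k ⧸ Ideal.span (G : Set (MvPolynomial (Fin n) k)))),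
      ∀ (a₁ a₂ a₃ : ℕ) (T : Fin a₁ → Fin a₂ → Fin a₃ → k), Block (d + 2) a₁ a₂ a₃ →
        ∀ j : ℕ, 1 ≤ j → (O (a₁ + a₂ + a₃ - 1 - j) 1 (hypS T)).Onto,
      ∀ (a₁ a₃ : ℕ) (T : Fin a₁ → Fin (d + 2) → Fin a₃ → k), ∀ j : ℕ, s ≤ j → 1 ≤ j →
        (O (a₁ + (d + 2) + a₃ - 1 - j) 1 (hypS T)).Onto] := by
  refine ⟨fun _ _ _ T ha => small_blocks hO hq T ha, fun d hd s => ?_⟩
  have h := class_tfae hO 1 (fun V hV hdim b => hO.extreme V 1 b hV.ft hdim (by push_cast; omega))
    d hd s
  tfae_have 1 → 2 := fun h1 => (h.out 0 1).mp (h1.imp (fun h2 => by omega) id)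
  tfae_have 2 → 1 := fun h1 => Or.inr fun V hV hdim => h1 V hV.ft hdim
  tfae_have 2 → 3 := by
    intro h1
    refine ⟨(h.out 1 2).mp h1, fun n G hG => complexity (sided_class hO) d (fun A _ _ _ hA => ?_) G hG⟩
    refine h1 _ (ft_aff True) ?_
    rw [Pool.Agent.Z125.UN.topDim_aff]
    exact hA
  tfae_have 3 → 4 := fun h1 => (h.out 2 3).mp h1.1
  tfae_have 4 → 2 := fun h1 => (h.out 3 1).mp h1
  tfae_have 4 ↔ 5 := h.out 3 4
  tfae_finish

end Pool.Agent.Results.MP_60ec62_ag.CubicsByDimension
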