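import Mathlib
import Pool.Agent.U191.GSHalf
import Pool.Agent.R299.CRY2.Main

/-!
# The crystalline Tate conjecture for the abelian varieties with one half of all slope types of
every CM field of degree `2 r ^ k`

Over an algebraic closure of the field with `p` elements each abelian variety is isogenous to the
reduction of an abelian variety of CM type (Honda, Tate). So an abelian variety over the field
with `p ^ a` elements is modelled by `RedAV`: a finite product of CM types `(E i, Φ i)` with Weil
numbers `π i ∈ E i` that satisfy the formula of Shimura and Taniyama; its cohomology of degree
`n`, with coefficients in an algebraically closed field `Ω`, consists of the alternating `n`-forms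
on `Ω ⊗ H_1`, on which the Frobenius endomorphism acts by `π`. We fix an isomorphism `ν` of the
algebraic closure of `ℚ_p` with `ℂ`; it defines a `p`-adic valuation of `ℂ`, with the value one at
`p`.

Let `K i` (`i` in a finite set) be CM fields of degree `2 g i` which are pairwise independent: for
`i ≠ k` and all complex embeddings `φ` of `K i` and `ψ` of `K k` some automorphism of `ℂ` is the
identity on `φ (K i)` and the complex conjugation on `ψ (K k)` (this is no condition if there is
only one field). Let `M i` be a function with integral values on the complex embeddings of `K i`,
invariant under complex conjugation (the weights). A CM type `Φ i` of `K i` (a choice of one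
element out of each complex conjugate pair of embeddings; there are `2 ^ g i` types), `M i` and a
real number `κ i ≠ 0` prescribe the slopes `(a + κ M) / 2` (at the embeddings in `Φ i`) and `(a -
κ M) / 2` (outside of `Φ i`) of a Weil number for `p ^ a` in `K i`. If `p` splits completely in `K
i` then, by Honda and Tate, all rational slopes between `0` and `a` that are symmetric in this way
occur for abelian varieties over finite fields. The case `M = 1`, `κ = a` is the ordinary case.

For a family of types `Φ i` let `𝒞` (`OfTypes`) be the class of the abelian varieties `Y` each of
whose factors is supersingular or has a Frobenius endomorphism some power of which is, for some `i`,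
a Weil number in `K i` with the slopes prescribed by `Φ i`, `M i` and some real number `κ i ≠ 0`
(which depends only on `Y` and `i`). So `Y` is, over an algebraic closure, isogenous to a product of
powers of one abelian variety for each `i`, with the given slopes, and of a supersingular one. The
class `𝒞` contains all products of powers of its members, and the products of its members with
supersingular abelian varieties.

**The property of the slope types.** `Q` (`Holds`) is the following: **both forms of the
crystalline Tate conjecture are true for all `Y` in `𝒞`, in all degrees, over all finite
extensions of the ground field**. This means the following. Let `K₀` be the fraction field of the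
ring of Witt vectors of the field with `Q = (p ^ a) ^ s` elements, with its Frobenius automorphism
`σ`; let `V₀` be the dual space of the first crystalline cohomology group of `Y` with coefficients
in `K₀`, with the semilinear endomorphism `Ψ` dual to the crystalline Frobenius endomorphism, and
the linear Frobenius endomorphism `F₀ = Ψ ^ (a * s)`. The crystalline cohomology group `H^{2m}(Y)`
is the space of alternating forms `f` of degree `2 m` on `V₀`; the crystalline Frobenius
endomorphism maps `f` to `v ↦ σ (f (Ψ v))`. Over an algebraically closed field `Ω` that contains
`K₀` the space `V₀` is identified with `Ω ⊗ H_1`, where `F₀` is the multiplication by `π ^ s`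
(`IsCrystalline`; the theorem holds for all fields `K₀` with an automorphism `σ` whose power `a *
s` is trivial). Let `Cyc ⊆ H^{2m}(Y)` be the set of the classes of algebraic cycles of codimension
`m` over the field with `Q` elements. Then

* each class `f` in `H^{2m}(Y)` with `Fr f = Q ^ m f` is a linear combination of elements of `Cyc`
  with coefficients in `K₀`, and
* each class `f` that is multiplied by `p ^ m` by the crystalline Frobenius endomorphism is a
  linear combination of elements of `Cyc` with coefficients in the fixed field of `σ`, the field
  of `p`-adic numbers.

The theorem uses of `Cyc` only that the crystalline Frobenius endomorphism multiplies its elements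
by `p ^ m`, and (`ContainsAlg`) that its linear span over `K₀` contains each class `g` with `Fr g
= Q ^ m g` that belongs, over `Ω`, to the smallest system `Alg` of cohomology classes of abelian
varieties over finite fields that contains the Tate classes of degree two (which are algebraic by
the theorem of Tate) and the reductions of the Weil classes of imaginary quadratic fields on
abelian fourfolds and sixfolds of split Weil type (Markman; not needed here), and that is stable
under linear combinations, cup products, pull-backs along homomorphisms and push-forwards along
projections.

**The theorem.** Let `K` be **any CM field of degree `2 g = 2 r ^ k`**, `r` a prime number, of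
degree at least `16` if `r = 2`. Nothing is assumed about the Galois group of the normal closure of
`K`, and nothing about the subfields of `K`.

* (`HalfOfAll`) For all weights `M` (odd if `r = 2`; if `r` is odd then `r` may divide some, but not
  all of them) the property `Q` is true for **at least one half of all `2 ^ g` types** of `K`.
* (`MostWithWeightsOne`) For the weights `M = 1` (for instance in the ordinary case) it is true for
  at least `(1 - 1 / r) 2 ^ g` of the types.
* (`OneOfTwo`) There is a set `B` of embeddings of `K`, stable under complex conjugation, such that
  for **every** type `Φ` it is true for `Φ` or for the symmetric difference of `Φ` and `B`.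
* (`SixteenPercent`) There is a number `g₀` such that for every CM field that is **abelian over
  `ℚ`**, of any degree `2 g ≥ 2 g₀`, and all odd weights it is true for at least 16 percent of all
  `2 ^ g` types; again nothing is assumed on the subfields.

All this is proved more generally for finitely many pairwise independent fields `K i`; the
proportions are then multiplied.

The earlier result for this problem (AllCMFields) treats almost all slope types of the fields with
few CM subfields, or whose degree has a large prime factor; it says nothing for the fields of
2-power degree with many CM subfields. The proof joins two parts of the library of the starting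
files: the theorem that one half of all types have no relations (`Pool.Agent.Q29.EP`, written for
the conjecture of Parshin, MP_de59b4_ag), and the consequences of elementary relations between the
Frobenius eigenvalues for this problem.
-/

set_option autoImplicit false

namespace Pool.Agent.Results.MP_60ec62_ag.HalfOfAllTypes

open NumberField Module Pool.Agent.H204R3.CM Pool.Agent.H977R3.CM Pool.Agent.TH170
  Pool.Agent.W495.TA Pool.Agent.W547.KB Pool.Agent.TH117.F5 Pool.Agent.R299.CRY Pool.Agent.Q29.EP

open scoped TensorProduct

/-- Both forms of the crystalline Tate conjecture for all abelian varieties with the slope types `Φ`. -/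
def Holds {p : ℕ} [Fact p.Prime] (ν : PadicAlgCl p ≃+* ℂ) {I : Type} (K : I → Type)
    [∀ i, Field (K i)] (M : ∀ i, (K i →+* ℂ) → ℤ) (Φ : ∀ i, Set (K i →+* ℂ)) : Prop :=
  ∀ Y : RedAV p ν, GS.OfTypes K M Φ Y → ∀ s : ℕ, 0 < s →
    ∀ (K₀ Ω V₀ : Type) [Field K₀] [CharZero K₀] [Field Ω] [IsAlgClosed Ω] [CharZero Ω]
      [Algebra K₀ Ω] [AddCommGroup V₀] [Module K₀ V₀] [FiniteDimensional K₀ V₀]
      (F₀ : V₀ →ₗ[K₀] V₀) (e : (Ω ⊗[K₀] V₀) ≃ₗ[Ω] TM Ω Y) (σ : K₀ ≃+* K₀) (Ψ : V₀ → V₀),
      IsCrystalline Y s F₀ e → IsSemilinearFrobenius (Y.a * s) σ Ψ F₀ →
        ∀ (m : ℕ) (Cyc : Set (V₀ [⋀^Fin (2 * m)]→ₗ[K₀] K₀)), (∀ c ∈ Cyc, IsFrobFixed p σ Ψ c) →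
          ContainsAlg s F₀ e (Submodule.span K₀ Cyc) →
            ∀ f : V₀ [⋀^Fin (2 * m)]→ₗ[K₀] K₀,
              (IsTateCrys F₀ ((p ^ Y.a) ^ s) m f → f ∈ Submodule.span K₀ Cyc) ∧
                (IsFrobFixed p σ Ψ f → FixedSpan σ Cyc f)

/-- The property of the slope types `Φ i` with the weights `M i`. -/
def Q : TypeProperty := fun _ _ ν _ _ K _ _ _ M Φ => Holds ν K M Φ

/-- **Both forms of the crystalline Tate conjecture are true for all abelian varieties with one half of
all slope types of every CM field of degree `2 r ^ k`.** -/
theorem result : HalfOfAll Q ∧ MostWithWeightsOne Q ∧ OneOfTwo Q ∧ SixteenPercent Q := by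
  have h : WithoutRelations Q := Pool.Agent.U191.GSHalf.withoutRelations
    fun p _ ν I _ K _ _ _ M Φ h Y hY s hs K₀ Ω V₀ _ _ _ _ _ _ _ _ _ F₀ e σ Ψ he hΨ m Cyc hC hA f => by
      obtain ⟨Z, h1, h2⟩ := h Y hY
      exact Pool.Agent.R299.CRY2.main_elem h1 h2 s hs F₀ e he σ Ψ hΨ Cyc hC hA f
  exact ⟨halfOfAll h, mostWithWeightsOne h, oneOfTwo h, sixteenPercent h⟩

end Pool.Agent.Results.MP_60ec62_ag.HalfOfAllTypes
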