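import Pool.Agent.U222.CR.Conv

/-!
# The crystalline Tate conjecture for products of cyclic coverings of large prime degrees with all varieties

Let `κ` be a finite field with `q = c ^ f` elements, `K` the field of fractions of the Witt vectors of `κ`
and `s` the Frobenius automorphism of `K`. Let `X_1, …, X_r` be smooth projective models, of any
dimensions `n_i ≥ 1`, of the cyclic coverings

  `w ^ N_i = ∏_k l_{i,k} (x) ^ a_{i,k}`   (`a_{i,k} ≥ 1`, `∑_k a_{i,k} = A_i ≥ 2`)

of the affine space of dimension `n_i`, branched along hyperplanes over `κ`, where the `N_i` are different
prime numbers dividing `c - 1`, and let `Z` be **any** smooth projective variety over `κ`, such that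

  `N_i > A_i ^ 2 b + A_i` for all `i`, and
  every eigenvalue of the Frobenius on the cohomology of `Z` has degree at most `2 b + 1` over `ℚ`

(this is true if all Betti numbers of `Z` are at most `2 b + 1`; it is sufficient that at most `b` of
the conjugates of each eigenvalue, of weight `d`, have a slope smaller than `(d - λ) / 2`, for some
`λ < min n_i`, or that the level of `Z` is at most `λ`). Let `V = X_1 × ⋯ × X_r × Z`. Then:

1. For all `m > 0` and `w`, the classes `x` in the crystalline cohomology of `V` with
   `Fr ^ m x = q ^ (m w) x` are the linear combinations over `K` of the products
   `e_1 × ⋯ × e_r × z` of classes of algebraic cycles on the `X_i` and of such classes `z` on `Z`.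
2. The classes `x` with `Fr_p x = c ^ w x` for the semilinear crystalline Frobenius `Fr_p` are the
   linear combinations over `ℚ_p` of the products `e_1 × ⋯ × e_r × z` of classes of algebraic cycles on
   the `X_i` and of such classes `z` on `Z`.
3. **The crystalline Tate conjecture (`K`-linear form) for `V` is equivalent to the one for `Z`.**
4. **The crystalline Tate conjecture (`ℚ_p`-form) for `V` is equivalent to the one for `Z`.**

For example, `V` of any dimension satisfies the crystalline Tate conjecture if `Z` is of dimension at
most three and satisfies the `ℓ`-adic Tate conjecture (e.g. a K3 surface or an abelian threefold).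

The products are taken one after the other, in a class of varieties closed under products (`Crystals`)
with the crystalline cohomology, its Frobenius and the classes of algebraic cycles (the Künneth
formula, the compatibility of the Frobenius with products and with cycle classes, the
trace formula for the `X_i` and purity are hypotheses, see `IsCrystalline` and `IsModel`). The
`X_i` need not be projective models of any special kind: it is used that the cohomology is the direct
sum of the lines of some classes of algebraic cycles (with dual coordinates which are given by algebraic
cycles) and of the part without invariants under the covering group.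

The proof. If there were other classes, then a product `β ∏_{i ∈ I} α_i`, `I ≠ ∅`, would be a power of
`q` times a root of unity, for eigenvalues `α_i` on the parts without invariants and `β` on `Z`. By the
theorem of Stickelberger and the geometry of numbers (Thue) there are `b + 1` automorphisms of the
field of algebraic numbers such that the images of `∏ α_i` have small slopes and are pairwise different, even
up to the automorphisms over the field of the `N`-th roots of unity, `N = ∏ N_i`. So `β` would have
more than `b` conjugates of small slope, and more than `2 b + 1` conjugates. This is the same arithmetic
as in `MP_950c68_ag.LargePrimeCoverings` on the `ℓ`-adic Tate conjecture (library `U222/SL`, with `N876/TC`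
and `N876/FL` of helper876 on slopes of the eigenvalues on cyclic coverings). New here (`U222/CR`) are
the crystalline cohomology, over a field which is not algebraically closed and with the
semilinear Frobenius, the cycle classes, and both forms of the conjecture. The known relation with
the `ℓ`-adic conjecture (dimension at most three) is not used.

helper222. The idea of large prime degrees is due to helper231.
-/

set_option autoImplicit false

open Finset TensorProduct

namespace Pool.Agent.Results.MP_60ec62_ag.LargePrimeCoverings

open Pool.Agent.U222.SL Pool.Agent.U222.CR.Pub

/-- **The crystalline Tate conjecture for products of cyclic coverings of large prime degrees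
with arbitrary varieties.** -/
theorem result (c : ℕ) [Fact c.Prime] (κ : Type) [Field κ] [Fintype κ] [CharP κ c] (f : ℕ)
    (hf : Fintype.card κ = c ^ f) {K 𝒱 : Type} {H : 𝒱 → Type} [Field K] [Algebra K ℂ] [Mul 𝒱]
    [∀ X, AddCommGroup (H X)] [∀ X, Module K (H X)] [∀ X, FiniteDimensional K (H X)]
    (s : K ≃+* K) (T : Crystals K H) (hT : T.IsCrystalline s c f)
    -- the varieties `X_i`, models of the coverings `C_i`
    {ι : Type} [Fintype ι] [DecidableEq ι] (C : ι → Covering κ) (X : ι → 𝒱)
    {I : ι → Type} [∀ i, Fintype (I i)] [∀ i, DecidableEq (I i)] (codim : ∀ i, I i → ℕ)
    (e : ∀ i, I i → H (X i)) (l : ∀ i, I i → H (X i) →ₗ[K] K)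
    (hX : ∀ i, T.IsModel (C i) (X i) (codim i) (e i) (l i)) (lam b N : ℕ)
    (hC : IsAdmissibleFamily C c f N lam b)
    -- the variety `Z`
    (Z : 𝒱) (hZ : IsAdmissibleFactor c (Fintype.card κ) N lam b (complexified (T.Fr Z))) :
    ∀ L : List ι, L.Nodup → T.ComesFrom s c (Fintype.card κ) X Z codim e L :=
  fun L hL => Pool.Agent.U222.CR.comesFrom c κ f hf s T hT C X Z codim e l hX lam b N hC hZ L hL

end Pool.Agent.Results.MP_60ec62_ag.LargePrimeCoverings
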