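import Pool.Agent.U436.CT.Final

/-!
# The Weil classes on the powers of every `ℤ/p`-covering of the line are algebraic, in every homology theory

`T` is a Borel–Moore homology theory with cycle classes on affine varieties over the algebraically closed field `k`:
`T.H X` is, for one fixed `i`, the group `H_{2 i} (X) (-i)` (rigid, in characteristic `p`, with coefficients in `K`; or
`ℓ`-adic), and `T.alg X` is the subspace spanned by the classes of the closed subvarieties of dimension `i`. The
structure `IsBorelMoore` lists the known properties which are used: functoriality for automorphisms, closed
immersions, restrictions to open parts `h ≠ 0` and finite direct images; the exact sequence of the closed part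
`h = 0`; homotopy invariance (automorphisms of a trivial line bundle over its base act trivially); the homology
of disjoint unions of affine spaces; the homology of the quotients by finite groups.

Let `A ≠ 0` be additive, `A (y) = y ^ q - y` in the application, and let

  `F (x) = f0 (x) + ∑ f i (1 / (x - P i))`

be ANY rational function with a pole of order `m 0` at infinity and poles of orders `m i` at `N` different points, all
these orders (the degrees of the polynomials `f0`, `f i`) being different from zero in `k`. Let `C` be the curve `A (y) = F (x)` (for `q = p`: after a change of `x`, every ramified `ℤ/p`-covering of the line) and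
`d = m 0 - 1 + ∑ (m i + 1)`, assumed to be even. Let `x` be a class on `C ^ d` (the zero set `cpow`) which is

* invariant under the permutations and the translations `y l ↦ y l + α l`, `A (α l) = 0`, `∑ α l = 0`, and
* killed by the sum of the translations `y l0 ↦ y l0 + ζ` of one coordinate, `A (ζ) = 0`.

Then `x` is algebraic.

Relation to the Tate conjecture (not formalised): let `A = y ^ q - y`, let `C'` be the smooth projective model of `C`
and `e` the idempotent of the group ring of `𝔽_q ^ d` belonging to the characters which are not trivial in each
variable. As every component of the boundary of `C ^ d` in `C' ^ d` is fixed by one of the `d` groups `𝔽_q`, `e` kills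
the homology of the boundary, so the restriction to `C ^ d` is an isomorphism on the images of `e`, also for the
algebraic classes. The classes `x` of the theorem are the Weil classes, the elements of `⊕ det H¹ (C')_ψ`, `ψ ≠ 1`
(`H¹ (C')_ψ` has dimension `d`): they are invariant under the permutations. They are Frobenius eigenclasses in degree
`d`, of exotic type in general, on `C' ^ d` and on the Jacobian of `C'`. So the crystalline (and `ℓ`-adic) Tate
conjecture is true for all these classes, for every such `C`.
-/

set_option autoImplicit false

namespace Pool.Agent.Results.MP_60ec62_ag.WeilClassesOfCovers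

open Pool.Agent.U436.AS Pool.Agent.U436.CT

theorem result (k : Type) [Field k] [IsAlgClosed k] (K : Type) [Field K] [CharZero K] (T : Theory k K)
    (hT : T.IsBorelMoore) (A : Polynomial k) (hA : IsAdditive A) (hA0 : A ≠ 0) (N d : ℕ) (f0 : Polynomial k)
    (f : Fin N → Polynomial k) (P : Fin N → k) (hP : Function.Injective P)
    (hm0 : (f0.natDegree : k) ≠ 0) (hm : ∀ i, ((f i).natDegree : k) ≠ 0)
    (hd : d + 1 = f0.natDegree + ∑ i, ((f i).natDegree + 1)) (he : Even d) (l0 : Fin d)
    (x : T.H (cpow A f0 f P d))
    (h1 : ∀ (σ : Equiv.Perm (Fin d)) (α : Fin d → k), (∀ l, A.eval (α l) = 0) → ∑ l, α l = 0 →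
      T.aut _ (rho σ α) x = x)
    (h2 : ∑ ζ ∈ zer A, T.aut _ (rho 1 (Pi.single l0 ζ)) x = 0) :
    T.IsAlg (cpow A f0 f P d) x :=
  weil_algebraic_orders hT.laws hA hA0 hP hm0 hm hd he l0 x h1 h2

end Pool.Agent.Results.MP_60ec62_ag.WeilClassesOfCovers
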